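import Pool.Agent.Helper53.SL.St2

/-!
# MP_9062f4_nt, project SM (part 2 of SL), module CON

The zero of a rational function with integer coefficients and exactly one zero and no pole in the disc.
-/

set_option autoImplicit false

open Polynomial Filter Topology MeasureTheory Set
open Pool.Agent.Helper96.Salem (IsPisot)

noncomputable section

namespace Pool.Agent.Helper65.SLM

open Pool.Agent.Helper53.SL

/-- `z ↦ exp (s * Har B ‖z‖)` is continuous in the open disc. -/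
lemma cont_exp_har (B s : ℝ) (w : ℂ) (hw : ‖w‖ < 1) :
    ContinuousAt (fun z : ℂ => Real.exp (s * Har B ‖z‖)) w := by
  unfold Har
  have h : (1 : ℝ) - ‖w‖ ≠ 0 := by linarith
  refine Real.continuous_exp.continuousAt.comp ?_
  refine continuousAt_const.mul (continuousAt_const.mul (ContinuousAt.div ?_ ?_ h))
  · exact (continuous_const.add continuous_norm).continuousAt
  · exact (continuous_const.sub continuous_norm).continuousAt

/-- the nonvanishing of a nonzero rational polynomial on a punctured neighbourhood -/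
lemma ev_ne (q : ℚ[X]) (hq : q ≠ 0) (w : ℂ) : ∀ᶠ z in 𝓝[≠] w, aeval z q ≠ 0 := by
  have hfin : ({z : ℂ | aeval z q = 0}).Finite := by
    have h1 : q.map (algebraMap ℚ ℂ) ≠ 0 :=
      (Polynomial.map_ne_zero_iff (algebraMap ℚ ℂ).injective).2 hq
    refine (Finset.finite_toSet (q.map (algebraMap ℚ ℂ)).roots.toFinset).subset ?_
    intro z hz
    simp only [Finset.mem_coe, Multiset.mem_toFinset]
    rw [mem_roots h1, IsRoot.def, eval_map_algebraMap]
    exact hz
  have h2 : ({z : ℂ | aeval z q = 0} \ {w})ᶜ ∈ 𝓝 w := by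
    apply IsOpen.mem_nhds
    · exact (hfin.subset sdiff_subset).isClosed.isOpen_compl
    · simp
  filter_upwards [mem_nhdsWithin_of_mem_nhds h2, self_mem_nhdsWithin] with z hz1 hz2
  intro h0
  exact hz1 ⟨h0, hz2⟩

lemma ev_disc (w : ℂ) (hw : ‖w‖ < 1) : ∀ᶠ z in 𝓝[≠] w, ‖z‖ < 1 := by
  have : ∀ᶠ z in 𝓝 w, ‖z‖ < 1 := continuous_norm.continuousAt.eventually_lt continuousAt_const hw
  exact this.filter_mono nhdsWithin_le_nhds

/-- the limit argument -/
lemma lim_arg (q P R : ℚ[X]) (hq : q ≠ 0) (B s c : ℝ) (w : ℂ) (hw : ‖w‖ < 1) (k : ℕ)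
    (h : ∀ z : ℂ, ‖z‖ < 1 → aeval z q ≠ 0 →
      ‖aeval z P‖ ≤ ‖1 - c * z‖ * Real.exp (s * Har B ‖z‖) * ‖aeval z q ^ k * aeval z R‖) :
    ‖aeval w P‖ ≤ ‖1 - c * w‖ * Real.exp (s * Har B ‖w‖) * ‖aeval w q ^ k * aeval w R‖ := by
  have hc1 : ContinuousAt (fun z : ℂ => ‖aeval z P‖) w :=
    (continuous_norm.comp (Polynomial.continuous_aeval P)).continuousAt
  have hc2 : ContinuousAt (fun z : ℂ => ‖1 - c * z‖ * Real.exp (s * Har B ‖z‖) *
      ‖aeval z q ^ k * aeval z R‖) w := by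
    refine ContinuousAt.mul (ContinuousAt.mul ?_ (cont_exp_har B s w hw)) ?_
    · apply Continuous.continuousAt
      fun_prop
    · apply Continuous.continuousAt
      have h1 := Polynomial.continuous_aeval (A := ℂ) q
      have h2 := Polynomial.continuous_aeval (A := ℂ) R
      exact continuous_norm.comp ((h1.pow k).mul h2)
  refine le_of_tendsto_of_tendsto (hc1.tendsto.mono_left nhdsWithin_le_nhds)
    (hc2.tendsto.mono_left nhdsWithin_le_nhds) (b := 𝓝[≠] w) ?_
  filter_upwards [ev_ne q hq w, ev_disc w hw] with z hz1 hz2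
  exact h z hz2 hz1

lemma lim_arg' (q P R : ℚ[X]) (hq : q ≠ 0) (B s c : ℝ) (w : ℂ) (hw : ‖w‖ < 1) (k : ℕ)
    (h : ∀ z : ℂ, ‖z‖ < 1 → aeval z q ≠ 0 →
      ‖1 - c * z‖ * Real.exp (s * Har B ‖z‖) * ‖aeval z P‖ ≤ ‖aeval z q ^ k * aeval z R‖) :
    ‖1 - c * w‖ * Real.exp (s * Har B ‖w‖) * ‖aeval w P‖ ≤ ‖aeval w q ^ k * aeval w R‖ := by
  have hc1 : ContinuousAt (fun z : ℂ => ‖1 - c * z‖ * Real.exp (s * Har B ‖z‖) *
      ‖aeval z P‖) w := by
    refine ContinuousAt.mul (ContinuousAt.mul ?_ (cont_exp_har B s w hw)) ?_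
    · apply Continuous.continuousAt
      fun_prop
    · exact (continuous_norm.comp (Polynomial.continuous_aeval P)).continuousAt
  have hc2 : ContinuousAt (fun z : ℂ => ‖aeval z q ^ k * aeval z R‖) w := by
    apply Continuous.continuousAt
    have h1 := Polynomial.continuous_aeval (A := ℂ) q
    have h2 := Polynomial.continuous_aeval (A := ℂ) R
    exact continuous_norm.comp ((h1.pow k).mul h2)
  refine le_of_tendsto_of_tendsto (hc1.tendsto.mono_left nhdsWithin_le_nhds)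
    (hc2.tendsto.mono_left nhdsWithin_le_nhds) (b := 𝓝[≠] w) ?_
  filter_upwards [ev_ne q hq w, ev_disc w hw] with z hz1 hz2
  exact h z hz2 hz1

/-- `aeval` of an integer polynomial through `ℚ` -/
lemma aeval_map_Q (N : ℤ[X]) (z : ℂ) : aeval z (N.map (Int.castRingHom ℚ)) = aeval z N := by
  rw [aeval_def, eval₂_map, aeval_def]
  congr 1

/-- the inverse of a conjugate is a conjugate of the inverse -/
lemma inv_conj (c : ℝ) (hc : c ≠ 0) (z : ℂ) (hz0 : z ≠ 0) (hz : aeval z (minpoly ℚ c) = 0) :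
    aeval z⁻¹ (minpoly ℚ (c⁻¹ : ℝ)) = 0 := by
  set q := minpoly ℚ (c⁻¹ : ℝ) with hq
  have h1 : aeval (c⁻¹ : ℝ) q = 0 := minpoly.aeval ℚ _
  have : Invertible (c⁻¹ : ℝ) := invertibleOfNonzero (inv_ne_zero hc)
  have h2 : aeval c q.reverse = 0 := by
    have h3 := (eval₂_reverse_eq_zero_iff (algebraMap ℚ ℝ) (c⁻¹ : ℝ) q).2 h1
    have h4 : (⅟(c⁻¹ : ℝ)) = c := by
      rw [invOf_eq_inv, inv_inv]
    rw [h4] at h3
    exact h3
  have h5 : minpoly ℚ c ∣ q.reverse := minpoly.dvd ℚ c h2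
  have h6 : aeval z q.reverse = 0 := by
    obtain ⟨r, hr⟩ := h5
    rw [hr, map_mul, hz, zero_mul]
  have : Invertible (z⁻¹ : ℂ) := invertibleOfNonzero (inv_ne_zero hz0)
  have h7 : eval₂ (algebraMap ℚ ℂ) (⅟(z⁻¹ : ℂ)) q.reverse = 0 := by
    rw [invOf_eq_inv, inv_inv]
    exact h6
  exact (eval₂_reverse_eq_zero_iff (algebraMap ℚ ℂ) (z⁻¹ : ℂ) q).1 h7

lemma aeval_real (x : ℝ) (P : ℚ[X]) : aeval (x : ℂ) P = ((aeval x P : ℝ) : ℂ) := by
  have := Polynomial.aeval_algebraMap_apply ℂ x P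
  simpa using this

/-- MODULE CON. -/
theorem hCon : StCon := by
  intro B c N D hc hN hD h
  have hc0 : c ≠ 0 := by linarith
  have hcC : (c : ℂ) ≠ 0 := by exact_mod_cast hc0
  have hinv1 : ‖((c⁻¹ : ℝ) : ℂ)‖ < 1 := by
    rw [Complex.norm_real, Real.norm_eq_abs, abs_of_pos (by positivity)]
    exact inv_lt_one_of_one_lt₀ hc
  have hN0 : N ≠ 0 := by
    intro h0
    rw [h0, coeff_zero] at hN
    exact zero_ne_one hN
  have hD0 : D ≠ 0 := by
    intro h0
    rw [h0, coeff_zero] at hD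
    exact zero_ne_one hD
  -- the polynomials over `ℚ`
  set NQ : ℚ[X] := N.map (Int.castRingHom ℚ) with hNQ
  set DQ : ℚ[X] := D.map (Int.castRingHom ℚ) with hDQ
  have hNQ0 : NQ ≠ 0 := (Polynomial.map_ne_zero_iff (Int.castRingHom ℚ).injective_int).2 hN0
  have hDQ0 : DQ ≠ 0 := (Polynomial.map_ne_zero_iff (Int.castRingHom ℚ).injective_int).2 hD0
  have hup : ∀ z : ℂ, ‖z‖ < 1 →
      ‖aeval z NQ‖ ≤ ‖1 - c * z‖ * Real.exp (1 * Har B ‖z‖) * ‖aeval z DQ‖ := by
    intro z hz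
    rw [hNQ, hDQ, aeval_map_Q, aeval_map_Q, one_mul]
    exact (h z hz).2
  have hlo : ∀ z : ℂ, ‖z‖ < 1 →
      ‖1 - c * z‖ * Real.exp ((-1) * Har B ‖z‖) * ‖aeval z DQ‖ ≤ ‖aeval z NQ‖ := by
    intro z hz
    rw [hNQ, hDQ, aeval_map_Q, aeval_map_Q, neg_one_mul]
    exact (h z hz).1
  have hone : (1 : ℂ) - c * ((c⁻¹ : ℝ) : ℂ) = 0 := by
    push_cast
    rw [mul_inv_cancel₀ hcC, sub_self]
  -- `N` vanishes at `1 / c`
  have hNc : aeval ((c⁻¹ : ℝ) : ℂ) NQ = 0 := by
    have h1 := hup _ hinv1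
    rw [hone, norm_zero, zero_mul, zero_mul] at h1
    exact norm_le_zero_iff.1 h1
  -- `c` is integral
  have hint : IsIntegral ℤ c := by
    refine ⟨N.reverse, ?_, ?_⟩
    · rw [Monic, reverse_leadingCoeff, trailingCoeff]
      have : N.natTrailingDegree = 0 := by
        apply Nat.eq_zero_of_le_zero
        apply natTrailingDegree_le_of_ne_zero
        rw [hN]
        exact one_ne_zero
      rw [this, hN]
    · have : Invertible (c⁻¹ : ℝ) := invertibleOfNonzero (inv_ne_zero hc0)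
      have h1 : eval₂ (algebraMap ℤ ℝ) (c⁻¹ : ℝ) N = 0 := by
        have h2 : aeval (c⁻¹ : ℝ) NQ = 0 := by
          have h3 := hNc
          rw [aeval_real] at h3
          exact_mod_cast h3
        rw [hNQ, aeval_def, eval₂_map] at h2
        rw [← h2]
        congr 1
      have h3 := (eval₂_reverse_eq_zero_iff (algebraMap ℤ ℝ) (c⁻¹ : ℝ) N).2 h1
      rw [invOf_eq_inv, inv_inv] at h3
      exact h3
  have hintQ : IsIntegral ℚ (c⁻¹ : ℝ) := by
    have h1 : IsIntegral ℚ c := hint.tower_top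
    exact h1.inv
  set q := minpoly ℚ (c⁻¹ : ℝ) with hq
  have hqi : Irreducible q := minpoly.irreducible hintQ
  have hq0 : q ≠ 0 := hqi.ne_zero
  have hqc : aeval ((c⁻¹ : ℝ) : ℂ) q = 0 := by
    rw [aeval_real, minpoly.aeval]
    simp
  -- all conjugates are in the closed disc
  have hall : ∀ z : ℂ, aeval z (minpoly ℚ c) = 0 → z ≠ (c : ℂ) → ‖z‖ ≤ 1 := by
    intro z hz hzc
    by_contra hlt
    push Not at hlt
    have hz0 : z ≠ 0 := fun h0 => by
      rw [h0, norm_zero] at hlt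
      linarith
    have hw : aeval z⁻¹ q = 0 := inv_conj c hc0 z hz0 hz
    have hw1 : ‖z⁻¹‖ < 1 := by
      rw [norm_inv]
      exact inv_lt_one_of_one_lt₀ hlt
    have hwne : (1 : ℂ) - c * z⁻¹ ≠ 0 := by
      intro h0
      apply hzc
      have h1 : (c : ℂ) * z⁻¹ = 1 := by linear_combination -h0
      field_simp at h1
      exact h1.symm
    obtain ⟨b, D1, hD1, hDe⟩ := WfDvdMonoid.max_power_factor hDQ0 hqi
    obtain ⟨a, N1, hN1, hNe⟩ := WfDvdMonoid.max_power_factor hNQ0 hqi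
    rcases Nat.lt_or_ge b a with hab | hab
    · -- the pole at `w'`
      obtain ⟨k, rfl⟩ := Nat.exists_eq_add_of_lt hab
      have h1 := lim_arg' q D1 N1 hq0 B (-1) c z⁻¹ hw1 (k + 1) (by
        intro y hy hqy
        have h2 := hlo y hy
        rw [hDe, hNe, map_mul, map_mul, map_pow, map_pow] at h2
        have h3 : aeval y q ^ (b + k + 1) * aeval y N1 =
            aeval y q ^ b * (aeval y q ^ (k + 1) * aeval y N1) := by ring
        rw [h3, norm_mul (aeval y q ^ b), norm_mul (aeval y q ^ b)] at h2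
        have h4 : 0 < ‖aeval y q ^ b‖ := norm_pos_iff.2 (pow_ne_zero _ hqy)
        have h5 : ‖aeval y q ^ b‖ * (‖1 - c * y‖ * Real.exp ((-1) * Har B ‖y‖) * ‖aeval y D1‖) ≤
            ‖aeval y q ^ b‖ * ‖aeval y q ^ (k + 1) * aeval y N1‖ := by
          linarith
        exact le_of_mul_le_mul_left h5 h4)
      rw [hw, zero_pow (Nat.succ_ne_zero k), zero_mul, norm_zero] at h1
      have h6 : 0 < ‖1 - c * z⁻¹‖ * Real.exp ((-1) * Har B ‖z⁻¹‖) :=
        mul_pos (norm_pos_iff.2 hwne) (Real.exp_pos _)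
      have h7 : ‖aeval z⁻¹ D1‖ ≤ 0 := by
        by_contra h8
        push Not at h8
        have := mul_pos h6 h8
        linarith
      have h8 : aeval z⁻¹ D1 = 0 := norm_le_zero_iff.1 h7
      apply hD1
      have h9 : q = minpoly ℚ z⁻¹ :=
        minpoly.eq_of_irreducible_of_monic hqi hw (minpoly.monic hintQ)
      rw [h9]
      exact minpoly.dvd ℚ _ h8
    · -- the zero at `1 / c`
      obtain ⟨k, rfl⟩ := Nat.exists_eq_add_of_le hab
      have h1 := lim_arg q N1 D1 hq0 B 1 c ((c⁻¹ : ℝ) : ℂ) hinv1 k (by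
        intro y hy hqy
        have h2 := hup y hy
        rw [hDe, hNe, map_mul, map_mul, map_pow, map_pow] at h2
        have h3 : aeval y q ^ (a + k) * aeval y D1 =
            aeval y q ^ a * (aeval y q ^ k * aeval y D1) := by ring
        rw [h3, norm_mul (aeval y q ^ a), norm_mul (aeval y q ^ a)] at h2
        have h4 : 0 < ‖aeval y q ^ a‖ := norm_pos_iff.2 (pow_ne_zero _ hqy)
        have h5 : ‖aeval y q ^ a‖ * ‖aeval y N1‖ ≤
            ‖aeval y q ^ a‖ * (‖1 - c * y‖ * Real.exp (1 * Har B ‖y‖) *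
              ‖aeval y q ^ k * aeval y D1‖) := by
          linarith
        exact le_of_mul_le_mul_left h5 h4)
      rw [hone, norm_zero, zero_mul, zero_mul] at h1
      have h2 : aeval ((c⁻¹ : ℝ) : ℂ) N1 = 0 := norm_le_zero_iff.1 h1
      apply hN1
      rw [aeval_real] at h2
      exact minpoly.dvd ℚ _ (by exact_mod_cast h2)
  by_cases hex : ∃ z : ℂ, aeval z (minpoly ℚ c) = 0 ∧ ‖z‖ = 1
  · exact Or.inr ⟨hint, hc, hall, hex⟩
  · refine Or.inl ⟨hint, hc, fun z hz hzc => ?_⟩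
    rcases lt_or_eq_of_le (hall z hz hzc) with h1 | h1
    · exact h1
    · exact absurd ⟨z, hz, h1⟩ hex

end Pool.Agent.Helper65.SLM

end
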